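import Pool.Agent.NL.StmtsB

set_option autoImplicit false

open MeasureTheory Filter Topology

noncomputable section

namespace Pool.Agent.NL.H33

theorem bo_add (n u : ℕ) (c d : ℕ → ℝ) (q : ℕ → ℝ →₀ ℝ) :
    bo n u (fun i => c i + d i) q = bo n u c q + bo n u d q := by
  unfold bo
  rw [← Finset.sum_add_distrib]
  exact Finset.sum_congr rfl fun i _ => add_smul _ _ _

theorem bo_smul (n u : ℕ) (a : ℝ) (c : ℕ → ℝ) (q : ℕ → ℝ →₀ ℝ) :
    bo n u (fun i => a * c i) q = a • bo n u c q := by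
  unfold bo
  rw [Finset.smul_sum]
  exact Finset.sum_congr rfl fun i _ => mul_smul _ _ _

theorem bo_zero (n u : ℕ) (q : ℕ → ℝ →₀ ℝ) : bo n u (fun _ => 0) q = 0 := by
  unfold bo
  exact Finset.sum_eq_zero fun i _ => zero_smul _ _

theorem bo_single (n u j : ℕ) (hj : j < n) (hu : j ≠ u) (q : ℕ → ℝ →₀ ℝ) :
    bo n u (fun i => if i = j then 1 else 0) q = q j := by
  unfold bo
  rw [Finset.sum_eq_single j]
  · simp only [if_true, one_smul]
  · intro i _ hi
    simp only [if_neg hi, zero_smul]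
  · intro h
    exact absurd (Finset.mem_erase.2 ⟨hu, Finset.mem_range.2 hj⟩) h

theorem bsr : BsrStmt := by
  intro X _ _ G Ψ n u q Q b hb
  unfold NE.Bs at hb
  induction hb using Submodule.span_induction with
  | mem x hx =>
    rcases hx with ⟨i, ⟨hi, hiu⟩, rfl⟩ | ⟨y, hy, rfl⟩
    · refine ⟨fun k => if k = i then 1 else 0, 0, Submodule.zero_mem _, ?_⟩
      rw [bo_single n u i hi hiu, map_zero, sub_zero]
    · refine ⟨fun _ => 0, -y, Submodule.neg_mem _ (Submodule.subset_span hy), ?_⟩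
      rw [bo_zero, map_zero, map_neg, zero_sub, neg_neg]
  | zero =>
    refine ⟨fun _ => 0, 0, Submodule.zero_mem _, ?_⟩
    rw [bo_zero, map_zero, map_zero, sub_zero]
  | add x y _ _ hx hy =>
    obtain ⟨c, y1, hy1, rfl⟩ := hx
    obtain ⟨d, y2, hy2, rfl⟩ := hy
    refine ⟨fun i => c i + d i, y1 + y2, Submodule.add_mem _ hy1 hy2, ?_⟩
    rw [bo_add, map_add, map_add]
    abel
  | smul a x _ hx =>
    obtain ⟨c, y1, hy1, rfl⟩ := hx
    refine ⟨fun i => a * c i, a • y1, Submodule.smul_mem _ _ hy1, ?_⟩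
    rw [bo_smul, map_smul, map_smul, smul_sub]

end Pool.Agent.NL.H33
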