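import Pool.Agent.NL.StmtsA

set_option autoImplicit false

open MeasureTheory Filter Topology

noncomputable section

namespace Pool.Agent.NL.H33

theorem fam (cpy : CpyStmt) (nrv : NrvStmt) : FamStmt := by
  intro X _ _ f F G Ψ hC a T₀ hT Φ₀ E _ ε hε N
  induction N with
  | zero =>
    intro K hK
    obtain ⟨Φ', hΦ'⟩ := nrv X G Ψ T₀ E ε hε
    refine ⟨fun _ => id, fun _ => T₀, fun _ => Φ₀ ∪ Φ', ?_, rfl, Finset.subset_union_left⟩
    exact
      { gn := fun i _ => hT
        suc := fun i hi => absurd hi (Nat.not_lt_zero i)
        inj := fun i hi => absurd hi (Nat.not_lt_zero i)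
        new := fun i hi => absurd hi (Nat.not_lt_zero i)
        mon := fun i hi => absurd hi (Nat.not_lt_zero i)
        nrm := fun i _ b hb y hy => by
          obtain ⟨k, hk, h⟩ := hΦ' b hb y hy
          exact ⟨k, Finset.mem_union_right _ hk, h⟩
        coo := fun i hi => absurd hi (Nat.not_lt_zero i)
        nr := fun i hi => absurd hi (Nat.not_lt_zero i)
        up := fun i hi => absurd hi (Nat.not_lt_zero i) }
  | succ N ih =>
    intro K hK
    obtain ⟨φ, T, Φ, hF, hT0, hΦ0⟩ := ih K (fun i hi => hK i (by omega))
    have hmono : ∀ i, i ≤ N → T₀ ⊆ T i := by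
      intro i
      induction i with
      | zero => intro _; rw [hT0]
      | succ i ihi =>
        intro hi
        rw [hF.suc i (by omega)]
        exact (ihi (by omega)).trans Finset.subset_union_left
    obtain ⟨φ', hinj, hnew, hgn, hco, hnr, hup⟩ :=
      cpy X f F G Ψ hC a (T N) (hF.gn N le_rfl) (K N)
        ((hK N (by omega)).trans (hmono N le_rfl)) (Φ N) E ε hε
    obtain ⟨Φ', hΦ'⟩ := nrv X G Ψ (T N ∪ (K N).image φ') E ε hε
    let φ2 : ℕ → ℝ → ℝ := fun i => if i = N then φ' else φ i
    let T2 : ℕ → Finset ℝ := fun i => if i ≤ N then T i else T N ∪ (K N).image φ'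
    let Φ2 : ℕ → Finset ℕ := fun i => if i ≤ N then Φ i else Φ N ∪ Φ'
    have e1 : ∀ i, i < N → φ2 i = φ i := fun i hi => if_neg (by omega)
    have e2 : φ2 N = φ' := if_pos rfl
    have e3 : ∀ i, i ≤ N → T2 i = T i := fun i hi => if_pos hi
    have e4 : T2 (N + 1) = T N ∪ (K N).image φ' := if_neg (by omega)
    have e5 : ∀ i, i ≤ N → Φ2 i = Φ i := fun i hi => if_pos hi
    have e6 : Φ2 (N + 1) = Φ N ∪ Φ' := if_neg (by omega)
    refine ⟨φ2, T2, Φ2, ?_, by rw [e3 0 (Nat.zero_le _), hT0], by rw [e5 0 (Nat.zero_le _)]; exact hΦ0⟩
    refine ⟨?_, ?_, ?_, ?_, ?_, ?_, ?_, ?_, ?_⟩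
    · intro i hi
      rcases Nat.lt_or_ge N i with h | h
      · have : i = N + 1 := by omega
        rw [this, e4]
        exact hgn
      · rw [e3 i h]
        exact hF.gn i h
    · intro i hi
      rcases Nat.lt_or_ge i N with h | h
      · rw [e3 (i + 1) h, e3 i h.le, e1 i h]
        exact hF.suc i h
      · have : i = N := by omega
        subst this
        rw [e4, e3 i le_rfl, e2]
    · intro i hi
      rcases Nat.lt_or_ge i N with h | h
      · rw [e1 i h]
        exact hF.inj i h
      · have : i = N := by omega
        subst this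
        rw [e2]
        exact hinj
    · intro i hi
      rcases Nat.lt_or_ge i N with h | h
      · rw [e1 i h, e3 i h.le]
        exact hF.new i h
      · have : i = N := by omega
        subst this
        rw [e2, e3 i le_rfl]
        exact hnew
    · intro i hi
      rcases Nat.lt_or_ge i N with h | h
      · rw [e5 i h.le, e5 (i + 1) h]
        exact hF.mon i h
      · have : i = N := by omega
        subst this
        rw [e5 i le_rfl, e6]
        exact Finset.subset_union_left
    · intro i hi
      rcases Nat.lt_or_ge N i with h | h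
      · have : i = N + 1 := by omega
        rw [this, e4, e6]
        intro b hb y hy
        obtain ⟨k, hk, hk2⟩ := hΦ' b hb y hy
        exact ⟨k, Finset.mem_union_right _ hk, hk2⟩
      · rw [e3 i h, e5 i h]
        exact hF.nrm i h
    · intro i hi
      rcases Nat.lt_or_ge i N with h | h
      · rw [e1 i h, e5 i h.le]
        exact hF.coo i h
      · have : i = N := by omega
        subst this
        rw [e2, e5 i le_rfl]
        exact hco
    · intro i hi
      rcases Nat.lt_or_ge i N with h | h
      · rw [e1 i h, e3 i h.le]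
        exact hF.nr i h
      · have : i = N := by omega
        subst this
        rw [e2, e3 i le_rfl]
        exact hnr
    · intro i hi
      rcases Nat.lt_or_ge i N with h | h
      · rw [e1 i h, e3 i h.le]
        exact hF.up i h
      · have : i = N := by omega
        subst this
        rw [e2, e3 i le_rfl]
        exact hup

end Pool.Agent.NL.H33
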